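import Pool.Agent.Helper88.EX.BorelA

/-!
# EX, block B: the sets of violations are Borel sets

For `σ = 1` the lower bound is considered for the open ovals (`ErO`), see `Es`.
-/

open MeasureTheory Real Set Filter Topology

set_option autoImplicit false

namespace Pool.Agent.Helper88.EX

open Pool.Agent.Helper93.AO Pool.Agent.Helper93.EX
open Pool.Agent.Helper22.AE (IsSupp area rho dom dom_compact area_scale)
open Pool.Agent.Helper22.LP (Fr fdet rot_isSupp)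
open Pool.Agent.Helper92.LA (Fb lcnt)
open Pool.Agent.Helper22.OV (shf shf_smooth shf_rho exists_shift area_shf)

/-- the signed error, for the open oval if `σ = 1` and for the closed oval otherwise -/
noncomputable def Es (σ : ℝ) (H : ℝ → ℝ) (c : ℝ × ℝ) (R : ℝ) : ℝ := if σ = 1 then ErO idf H c R else -Er idf H c R

theorem Es_one (H : ℝ → ℝ) (c : ℝ × ℝ) (R : ℝ) : Es 1 H c R = ErO idf H c R := if_pos rfl

theorem Es_neg (H : ℝ → ℝ) (c : ℝ × ℝ) (R : ℝ) : Es (-1) H c R = -Er idf H c R := if_neg (by norm_num)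

theorem Es_le {σ : ℝ} (hσ : σ = 1 ∨ σ = -1) (H : ℝ → ℝ) (c : ℝ × ℝ) (R : ℝ) : Es σ H c R ≤ σ * Er idf H c R := by
  rcases hσ with rfl | rfl
  · rw [Es_one, one_mul]
    exact ErO_le H c R
  · rw [Es_neg]
    linarith

/-- continuity of the order of the error -/
theorem gR_cont {R : ℝ} (hR : 2 ≤ R) : ContinuousAt gR R := by
  unfold gR
  have h1 : ContinuousAt (fun x : ℝ => x ^ (1 / 2 : ℝ)) R := Real.continuousAt_rpow_const _ _ (Or.inl (by linarith))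
  have h2 : ContinuousAt (fun x : ℝ => log x ^ (1 / 4 : ℝ)) R :=
    (continuousAt_log (by linarith)).rpow_const (Or.inl (log_pos (by linarith)).ne')
  exact h1.mul h2

theorem gR_pos {R : ℝ} (hR : 2 ≤ R) : 0 < gR R :=
  mul_pos (rpow_pos_of_pos (by linarith) _) (rpow_pos_of_pos (log_pos (by linarith)) _)

/-- from the closed to the open oval, with a slightly larger `R` -/
theorem open_up {H : ℝ → ℝ} (hH : IsOv H) {A R : ℝ} (hR : 2 ≤ R) {c : ℝ × ℝ} (h : A * gR R < Er idf H c R) :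
    ∃ R' : ℝ, R < R' ∧ ∃ c' : ℝ × ℝ, A * gR R' < ErO idf H c' R' := by
  obtain ⟨v, hv⟩ := exists_shift hH.smooth hH.per hH.rho_pos
  rw [Er_idf] at h
  have hc : ContinuousAt (fun x : ℝ => A * gR x + area H * x ^ 2) R :=
    (continuousAt_const.mul (gR_cont hR)).add (by fun_prop)
  have h1 : A * gR R + area H * R ^ 2 < ((SC H c R).ncard : ℝ) := by linarith
  have e1 : ∀ᶠ x : ℝ in 𝓝[>] R, A * gR x + area H * x ^ 2 < ((SC H c R).ncard : ℝ) :=
    (hc.eventually (gt_mem_nhds h1)).filter_mono nhdsWithin_le_nhds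
  obtain ⟨R', h2, h3⟩ := (e1.and self_mem_nhdsWithin).exists
  have h3' : R < R' := h3
  refine ⟨R', h3', (c.1 + (R' - R) * v.1, c.2 + (R' - R) * v.2), ?_⟩
  rw [ErO_idf]
  have h4 : ((SC H c R).ncard : ℝ) ≤ ((SO H (c.1 + (R' - R) * v.1, c.2 + (R' - R) * v.2) R').ncard : ℝ) := by
    exact_mod_cast Set.ncard_le_ncard (SC_sub_SO hv.pos h3') (fin_SO _ _ _)
  linarith

/-- periodicity in the centre -/
theorem Es_add (σ : ℝ) (H : ℝ → ℝ) (c : ℝ × ℝ) (R : ℝ) (m : ℤ × ℤ) :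
    Es σ H (c.1 + m.1, c.2 + m.2) R = Es σ H c R := by
  have hpr : ∀ (κ : ℤ × ℤ) (t : ℝ), pr (κ + m) (c.1 + m.1, c.2 + m.2) t = pr κ c t := by
    intro κ t
    unfold pr
    simp only [Prod.fst_add, Prod.snd_add]
    push_cast
    ring
  have h1 : (SC H (c.1 + m.1, c.2 + m.2) R).ncard = (SC H c R).ncard := by
    symm
    apply Set.ncard_congr (fun κ _ => κ + m)
    · intro κ hκ t
      rw [hpr]
      exact hκ t
    · intro a b _ _ hab
      exact add_right_cancel hab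
    · intro κ hκ
      refine ⟨κ - m, fun t => ?_, sub_add_cancel κ m⟩
      rw [← hpr, sub_add_cancel]
      exact hκ t
  have h2 : (SO H (c.1 + m.1, c.2 + m.2) R).ncard = (SO H c R).ncard := by
    symm
    apply Set.ncard_congr (fun κ _ => κ + m)
    · intro κ hκ t
      rw [hpr]
      exact hκ t
    · intro a b _ _ hab
      exact add_right_cancel hab
    · intro κ hκ
      refine ⟨κ - m, fun t => ?_, sub_add_cancel κ m⟩
      rw [← hpr, sub_add_cancel]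
      exact hκ t
  unfold Es
  rw [ErO_idf, ErO_idf, Er_idf, Er_idf, h1, h2]

section

variable {k : ℕ} {V : Type} [TopologicalSpace V] {val : V → ℝ → ℝ}

/-- a violation persists, for the same `R` -/
theorem viol_near (h : IsPer k val) (hk : 2 ≤ k) {σ : ℝ} (hσ : σ = 1 ∨ σ = -1) (κ e : ℝ) {H : V}
    (hH : ∀ t, 0 < val H t + deriv (deriv (val H)) t) {c : ℝ × ℝ} {R : ℝ}
    (hv : (κ * aff (val H) ^ (3 / 4 : ℝ) + e) * gR R < Es σ (val H) c R) :
    ∀ᶠ z : V × (ℝ × ℝ) in 𝓝 (H, c), (∀ t, 0 < val z.1 t + deriv (deriv (val z.1)) t) ∧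
      (κ * aff (val z.1) ^ (3 / 4 : ℝ) + e) * gR R < Es σ (val z.1) z.2 R := by
  -- continuity of the left side and of the area term
  set d : ℝ := Es σ (val H) c R - (κ * aff (val H) ^ (3 / 4 : ℝ) + e) * gR R with hd
  have hd0 : 0 < d := by linarith
  have hc : ContinuousAt (fun x : ℝ => (κ * x ^ (3 / 4 : ℝ) + e) * gR R) (aff (val H)) :=
    (((continuousAt_const.mul (Real.continuousAt_rpow_const _ _ (Or.inr (by norm_num)))).add
      continuousAt_const).mul continuousAt_const)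
  obtain ⟨δ, hδ, hball⟩ := Metric.eventually_nhds_iff.1 (hc.eventually (gt_mem_nhds
    (show (κ * aff (val H) ^ (3 / 4 : ℝ) + e) * gR R < (κ * aff (val H) ^ (3 / 4 : ℝ) + e) * gR R + d / 2 by linarith)))
  have hη : 0 < d / (2 * (R ^ 2 + 1)) := by positivity
  have hR2 : R ^ 2 * (d / (2 * (R ^ 2 + 1))) < d / 2 := by
    have e1 : d / 2 = (R ^ 2 + 1) * (d / (2 * (R ^ 2 + 1))) := by field_simp
    rw [e1]
    have : (R ^ 2) * (d / (2 * (R ^ 2 + 1))) < (R ^ 2 + 1) * (d / (2 * (R ^ 2 + 1))) :=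
      mul_lt_mul_of_pos_right (by linarith) hη
    exact this
  have hfst : Tendsto (fun z : V × (ℝ × ℝ) => z.1) (𝓝 (H, c)) (𝓝 H) := continuous_fst.tendsto (H, c)
  filter_upwards [hfst.eventually (pos88 h hk hH), hfst.eventually (aff_near88 h hk hH hδ),
    hfst.eventually (area_near88 h hk hH hη), lscO h H c R, uscC h H c R] with z h1 h2 h3 h4 h5
  refine ⟨h1, ?_⟩
  have h6 := hball (y := aff (val z.1)) (by rw [Real.dist_eq]; exact h2)
  have h7 : |area (val z.1) * R ^ 2 - area (val H) * R ^ 2| < d / 2 := by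
    rw [← sub_mul, abs_mul, abs_of_nonneg (sq_nonneg R)]
    calc |area (val z.1) - area (val H)| * R ^ 2 ≤ (d / (2 * (R ^ 2 + 1))) * R ^ 2 :=
          mul_le_mul_of_nonneg_right h3.le (sq_nonneg R)
      _ = R ^ 2 * (d / (2 * (R ^ 2 + 1))) := mul_comm _ _
      _ < d / 2 := hR2
  have h8 := abs_lt.1 h7
  have h9 : Es σ (val H) c R - d / 2 < Es σ (val z.1) z.2 R := by
    rcases hσ with rfl | rfl
    · rw [Es_one, Es_one, ErO_idf, ErO_idf]
      have h10 : ((SO (val H) c R).ncard : ℝ) ≤ ((SO (val z.1) z.2 R).ncard : ℝ) := by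
        exact_mod_cast Set.ncard_le_ncard h4 (fin_SO _ _ _)
      linarith [h8.1, h8.2]
    · rw [Es_neg, Es_neg, Er_idf, Er_idf]
      have h10 : ((SC (val z.1) z.2 R).ncard : ℝ) ≤ ((SC (val H) c R).ncard : ℝ) := by
        exact_mod_cast Set.ncard_le_ncard h5 (fin_SC _ _ _)
      linarith [h8.1, h8.2]
  linarith

/-- positive radius of curvature is an open condition -/
theorem isOpen_ov (h : IsPer k val) (hk : 2 ≤ k) : IsOpen {H : V | ∀ t, 0 < val H t + deriv (deriv (val H)) t} := by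
  rw [isOpen_iff_mem_nhds]
  intro H hH
  exact pos88 h hk hH

/-- the upper violations form a Borel set -/
theorem meas_up [MeasurableSpace V] [BorelSpace V] (h : IsPer k val) (hk : 2 ≤ k) {σ : ℝ} (hσ : σ = 1 ∨ σ = -1) (κ : ℝ) :
    MeasurableSet {H : V | (∀ t, 0 < val H t + deriv (deriv (val H)) t) ∧ ∃ ε : ℝ, 0 < ε ∧ ∀ R₀ : ℝ, ∃ R : ℝ, R₀ ≤ R ∧
      ∃ c : ℝ × ℝ, (κ * aff (val H) ^ (3 / 4 : ℝ) + ε) * gR R < σ * Er idf (val H) c R} := by
  let U : ℕ → ℕ → Set V := fun n m => {H | (∀ t, 0 < val H t + deriv (deriv (val H)) t) ∧ ∃ R : ℝ, (m : ℝ) + 2 < R ∧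
    ∃ c : ℝ × ℝ, (κ * aff (val H) ^ (3 / 4 : ℝ) + 1 / ((n : ℝ) + 1)) * gR R < Es σ (val H) c R}
  have hU : ∀ n m, IsOpen (U n m) := by
    intro n m
    rw [isOpen_iff_mem_nhds]
    rintro H ⟨hH, R, hR, c, hv⟩
    have h1 := viol_near h hk hσ κ (1 / ((n : ℝ) + 1)) hH hv
    have h2 : Tendsto (fun f : V => (f, c)) (𝓝 H) (𝓝 (H, c)) := (Continuous.prodMk_left c).tendsto H
    filter_upwards [h2.eventually h1] with f hf
    exact ⟨hf.1, R, hR, c, hf.2⟩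
  have hset : {H : V | (∀ t, 0 < val H t + deriv (deriv (val H)) t) ∧ ∃ ε : ℝ, 0 < ε ∧ ∀ R₀ : ℝ, ∃ R : ℝ, R₀ ≤ R ∧
      ∃ c : ℝ × ℝ, (κ * aff (val H) ^ (3 / 4 : ℝ) + ε) * gR R < σ * Er idf (val H) c R} = ⋃ n, ⋂ m, U n m := by
    ext H
    simp only [mem_iUnion, mem_iInter]
    constructor
    · rintro ⟨hH, ε, hε, hR⟩
      obtain ⟨n, hn⟩ := exists_nat_one_div_lt hε
      refine ⟨n, fun m => ?_⟩
      obtain ⟨R, hR1, c, hv⟩ := hR ((m : ℝ) + 3)
      have hm : (0 : ℝ) ≤ m := Nat.cast_nonneg m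
      have hR2 : 2 ≤ R := by linarith
      have hv' : (κ * aff (val H) ^ (3 / 4 : ℝ) + 1 / ((n : ℝ) + 1)) * gR R < σ * Er idf (val H) c R := by
        refine lt_of_le_of_lt ?_ hv
        exact mul_le_mul_of_nonneg_right (by linarith) (gR_pos hR2).le
      rcases hσ with rfl | rfl
      · rw [one_mul] at hv'
        obtain ⟨R', hR', c', hv''⟩ := open_up (ov88 h hk hH) hR2 hv'
        exact ⟨hH, R', by linarith, c', by rw [Es_one]; exact hv''⟩
      · exact ⟨hH, R, by linarith, c, by rw [Es_neg]; linarith⟩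
    · rintro ⟨n, hn⟩
      refine ⟨(hn 0).1, 1 / ((n : ℝ) + 1), by positivity, fun R₀ => ?_⟩
      obtain ⟨m, hm⟩ := exists_nat_ge R₀
      obtain ⟨-, R, hR, c, hv⟩ := hn m
      exact ⟨R, by linarith, c, lt_of_lt_of_le hv (Es_le hσ _ _ _)⟩
  rw [hset]
  exact MeasurableSet.iUnion fun n => MeasurableSet.iInter fun m => (hU n m).measurableSet

/-- the lower violations form a Borel set -/
theorem meas_lo [MeasurableSpace V] [BorelSpace V] (h : IsPer k val) (hk : 2 ≤ k) {σ : ℝ} (hσ : σ = 1 ∨ σ = -1) (κ : ℝ) :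
    MeasurableSet {H : V | (∀ t, 0 < val H t + deriv (deriv (val H)) t) ∧ ∃ ε : ℝ, 0 < ε ∧ ∃ R₀ : ℝ, ∃ c : ℝ × ℝ,
      ∀ R : ℝ, R₀ ≤ R → Es σ (val H) c R < (κ * aff (val H) ^ (3 / 4 : ℝ) - ε) * gR R} := by
  let O : ℕ → ℕ → Set V := fun n m => {H | (∀ t, 0 < val H t + deriv (deriv (val H)) t) ∧ ∀ c : ℝ × ℝ, ∃ R : ℝ, (m : ℝ) + 2 ≤ R ∧
    (κ * aff (val H) ^ (3 / 4 : ℝ) + -(1 / ((n : ℝ) + 1))) * gR R < Es σ (val H) c R}
  have hO : ∀ n m, IsOpen (O n m) := by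
    intro n m
    rw [isOpen_iff_mem_nhds]
    rintro H ⟨hH, hc⟩
    have hK : IsCompact (Icc (0 : ℝ) 1 ×ˢ Icc (0 : ℝ) 1) := isCompact_Icc.prod isCompact_Icc
    have h1 := hK.eventually_forall_of_forall_eventually (x₀ := H)
      (P := fun f c => ∃ R : ℝ, (m : ℝ) + 2 ≤ R ∧
        (κ * aff (val f) ^ (3 / 4 : ℝ) + -(1 / ((n : ℝ) + 1))) * gR R < Es σ (val f) c R) (by
      intro c _
      obtain ⟨R, hR, hv⟩ := hc c
      filter_upwards [viol_near h hk hσ κ (-(1 / ((n : ℝ) + 1))) hH hv] with z hz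
      exact ⟨R, hR, hz.2⟩)
    filter_upwards [pos88 h hk hH, h1] with f hf hf2
    refine ⟨hf, fun c => ?_⟩
    obtain ⟨R, hR, hv⟩ := hf2 (Int.fract c.1, Int.fract c.2)
      ⟨⟨Int.fract_nonneg _, (Int.fract_lt_one _).le⟩, ⟨Int.fract_nonneg _, (Int.fract_lt_one _).le⟩⟩
    refine ⟨R, hR, ?_⟩
    have h2 := Es_add σ (val f) (Int.fract c.1, Int.fract c.2) R (⌊c.1⌋, ⌊c.2⌋)
    simp only [Int.fract_add_floor] at h2
    have h3 : ((c.1, c.2) : ℝ × ℝ) = c := rfl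
    rw [h3] at h2
    rw [h2]
    exact hv
  have hset : {H : V | (∀ t, 0 < val H t + deriv (deriv (val H)) t) ∧ ∃ ε : ℝ, 0 < ε ∧ ∃ R₀ : ℝ, ∃ c : ℝ × ℝ,
      ∀ R : ℝ, R₀ ≤ R → Es σ (val H) c R < (κ * aff (val H) ^ (3 / 4 : ℝ) - ε) * gR R} =
      ⋃ n, ⋃ m, {H : V | ∀ t, 0 < val H t + deriv (deriv (val H)) t} \ O n m := by
    ext H
    simp only [mem_iUnion]
    constructor
    · rintro ⟨hH, ε, hε, R₀, c, hR⟩
      obtain ⟨n, hn⟩ := exists_nat_one_div_lt hε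
      obtain ⟨m, hm⟩ := exists_nat_ge R₀
      refine ⟨n, m, hH, fun hO' => ?_⟩
      obtain ⟨R, hR1, hv⟩ := hO'.2 c
      have hm0 : (0 : ℝ) ≤ m := Nat.cast_nonneg m
      have h1 := hR R (by linarith)
      have h2 : (κ * aff (val H) ^ (3 / 4 : ℝ) - ε) * gR R ≤
          (κ * aff (val H) ^ (3 / 4 : ℝ) + -(1 / ((n : ℝ) + 1))) * gR R :=
        mul_le_mul_of_nonneg_right (by linarith) (gR_pos (by linarith)).le
      linarith
    · rintro ⟨n, m, hH, hO'⟩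
      have h1 : ∃ c : ℝ × ℝ, ∀ R : ℝ, (m : ℝ) + 2 ≤ R →
          Es σ (val H) c R ≤ (κ * aff (val H) ^ (3 / 4 : ℝ) + -(1 / ((n : ℝ) + 1))) * gR R := by
        by_contra hcon
        push Not at hcon
        exact hO' ⟨hH, hcon⟩
      obtain ⟨c, hc⟩ := h1
      refine ⟨hH, 1 / ((n : ℝ) + 1) / 2, by positivity, (m : ℝ) + 2, c, fun R hR => ?_⟩
      have hm0 : (0 : ℝ) ≤ m := Nat.cast_nonneg m
      refine lt_of_le_of_lt (hc R hR) ?_
      apply mul_lt_mul_of_pos_right _ (gR_pos (by linarith))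
      have : 0 < 1 / ((n : ℝ) + 1) := by positivity
      linarith
  rw [hset]
  exact MeasurableSet.iUnion fun n => MeasurableSet.iUnion fun m =>
    (isOpen_ov h hk).measurableSet.diff (hO n m).measurableSet

end

/-- a violation of the lower bound for the closed ovals is one for `Es` -/
theorem viol_Es {σ : ℝ} (hσ : σ = 1 ∨ σ = -1) {H : ℝ → ℝ} {c : ℝ × ℝ} {R b : ℝ} (h : σ * Er idf H c R < b) : Es σ H c R < b :=
  lt_of_le_of_lt (Es_le hσ H c R) h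

/-- the open oval contains the slightly smaller closed ones -/
theorem Er_le_ErO {H : ℝ → ℝ} {v : ℝ × ℝ} (hv : ∀ t, 0 < shf H v t) {c : ℝ × ℝ} {R R' : ℝ} (hR : R' < R) :
    Er idf H (c.1 + (R' - R) * v.1, c.2 + (R' - R) * v.2) R' ≤ ErO idf H c R + area H * (R ^ 2 - R' ^ 2) := by
  rw [Er_idf, ErO_idf]
  have h1 := SC_sub_SO hv (c := (c.1 + (R' - R) * v.1, c.2 + (R' - R) * v.2)) hR
  have e : ((c.1 + (R' - R) * v.1 + (R - R') * v.1, c.2 + (R' - R) * v.2 + (R - R') * v.2) : ℝ × ℝ) = c := by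
    ext <;> simp only <;> ring
  simp only at h1
  rw [e] at h1
  have h2 : ((SC H (c.1 + (R' - R) * v.1, c.2 + (R' - R) * v.2) R').ncard : ℝ) ≤ ((SO H c R).ncard : ℝ) := by
    exact_mod_cast Set.ncard_le_ncard h1 (fin_SO _ _ _)
  linarith

theorem fJ_cont (J : ℕ) : Continuous (fJ J) := by
  unfold fJ
  fun_prop

/-- the limit from below -/
theorem ErO_ge_lim {H : ℝ → ℝ} (hO : IsOv H) {N : ℕ} {R L η : ℝ} {c : ℝ × ℝ} {q : ℝ} (hq : q < R)
    (h : ∀ R' : ℝ, q < R' → R' < R → ∀ c' : ℝ × ℝ, |Er idf H c' R' - sqrt R' * Mx H N R' c'| ≤ η * (sqrt R' * L)) :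
    sqrt R * Mx H N R c - η * (sqrt R * L) ≤ ErO idf H c R := by
  obtain ⟨v, hv⟩ := exists_shift hO.smooth hO.per hO.rho_pos
  let F : ℝ → ℝ := fun x => sqrt x * Mx H N x (c.1 + (x - R) * v.1, c.2 + (x - R) * v.2) - η * (sqrt x * L) -
    area H * (R ^ 2 - x ^ 2)
  have hMc : Continuous fun x : ℝ => Mx H N x (c.1 + (x - R) * v.1, c.2 + (x - R) * v.2) := by
    unfold Mx
    apply continuous_finset_sum
    intro κ _
    apply continuous_const.mul
    apply (fJ_cont _).comp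
    fun_prop
  have hF : Continuous F := by
    have hs : Continuous fun x : ℝ => sqrt x := Real.continuous_sqrt
    exact ((hs.mul hMc).sub (continuous_const.mul (hs.mul continuous_const))).sub (by fun_prop)
  have hFR : F R = sqrt R * Mx H N R c - η * (sqrt R * L) := by
    simp only [F, sub_self, zero_mul, add_zero, mul_zero, sub_zero]
  rw [← hFR]
  refine le_of_tendsto (hF.continuousAt.tendsto.mono_left nhdsWithin_le_nhds : Tendsto F (𝓝[<] R) (𝓝 (F R))) ?_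
  have h1 : ∀ᶠ x : ℝ in 𝓝[<] R, q < x := (lt_mem_nhds hq).filter_mono nhdsWithin_le_nhds
  filter_upwards [h1, self_mem_nhdsWithin] with x hx1 hx2
  have hx2' : x < R := hx2
  have h2 := (abs_le.1 (h x hx1 hx2' (c.1 + (x - R) * v.1, c.2 + (x - R) * v.2))).1
  have h3 := Er_le_ErO hv.pos (c := c) hx2'
  simp only [F]
  linarith

/-- the truncated formula for the open ovals -/
theorem trunc_open {H : ℝ → ℝ} (hO : IsOv H)
    (hT : ∀ ε : ℝ, 0 < ε → ∃ a₀ : ℕ, ∀ a : ℕ, a₀ ≤ a → ∃ p₀ : ℕ, ∀ p : ℕ, p₀ ≤ p → ∀ R ∈ Icc ((2 : ℝ) ^ p) (2 ^ (p + 1)), ∀ c : ℝ × ℝ,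
      |Er idf H c R - sqrt R * Mx H (NN a p) R c| ≤ ε * (sqrt R * Lx p ^ (1 / 4 : ℝ))) :
    ∀ ε : ℝ, 0 < ε → ∃ a₀ : ℕ, ∀ a : ℕ, a₀ ≤ a → ∃ p₀ : ℕ, ∀ p : ℕ, p₀ ≤ p → ∀ R ∈ Icc ((2 : ℝ) ^ p) (2 ^ (p + 1)), ∀ c : ℝ × ℝ,
      |ErO idf H c R - sqrt R * Mx H (NN a p) R c| ≤ ε * (sqrt R * Lx p ^ (1 / 4 : ℝ)) := by
  intro ε hε
  obtain ⟨a₀, ha₀⟩ := hT (ε / 4) (by linarith)
  refine ⟨a₀, fun a ha => ?_⟩
  obtain ⟨p₀, hp₀⟩ := ha₀ a ha
  refine ⟨p₀ + 1, fun p hp R hR c => ?_⟩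
  have hR0 : 0 ≤ sqrt R := Real.sqrt_nonneg R
  have hLx : 0 ≤ Lx p := mul_nonneg (Nat.cast_nonneg p) (log_pos (by norm_num)).le
  have hL0 : 0 ≤ Lx p ^ (1 / 4 : ℝ) := rpow_nonneg hLx _
  have hX : 0 ≤ sqrt R * Lx p ^ (1 / 4 : ℝ) := mul_nonneg hR0 hL0
  have h1 := abs_le.1 (hp₀ p (by omega) R hR c)
  have hup := ErO_le H c R
  rw [abs_le]
  constructor
  · -- the lower bound
    rcases hR.1.lt_or_eq with hlt | heq
    · have h2 := ErO_ge_lim hO (N := NN a p) (R := R) (L := Lx p ^ (1 / 4 : ℝ)) (η := ε / 4) (c := c) hlt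
        (fun R' hR1 hR2 c' => hp₀ p (by omega) R' ⟨hR1.le, hR2.le.trans hR.2⟩ c')
      nlinarith
    · obtain ⟨q, rfl⟩ : ∃ q, p = q + 1 := ⟨p - 1, by omega⟩
      have hq1 : (2 : ℝ) ^ q < R := by
        rw [← heq, pow_succ]
        have : (0 : ℝ) < 2 ^ q := by positivity
        linarith
      have h2 := ErO_ge_lim hO (N := NN a q) (R := R) (L := Lx q ^ (1 / 4 : ℝ)) (η := ε / 4) (c := c) hq1
        (fun R' hR1 hR2 c' => hp₀ q (by omega) R' ⟨hR1.le, by rw [heq]; exact hR2.le⟩ c')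
      have h3 := abs_le.1 (hp₀ q (by omega) R ⟨hq1.le, heq.symm.le⟩ c)
      have h4 : Lx q ^ (1 / 4 : ℝ) ≤ Lx (q + 1) ^ (1 / 4 : ℝ) := by
        apply Real.rpow_le_rpow (mul_nonneg (Nat.cast_nonneg q) (log_pos (by norm_num)).le) _ (by norm_num)
        unfold Lx
        apply mul_le_mul_of_nonneg_right _ (log_pos (by norm_num)).le
        push_cast
        linarith
      have h5 : sqrt R * Lx q ^ (1 / 4 : ℝ) ≤ sqrt R * Lx (q + 1) ^ (1 / 4 : ℝ) := mul_le_mul_of_nonneg_left h4 hR0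
      have h6 : ε / 4 * (sqrt R * Lx q ^ (1 / 4 : ℝ)) ≤ ε / 4 * (sqrt R * Lx (q + 1) ^ (1 / 4 : ℝ)) :=
        mul_le_mul_of_nonneg_left h5 (by linarith)
      nlinarith [h1.1, h1.2, h3.1, h3.2]
  · have h2 : ε / 4 * (sqrt R * Lx p ^ (1 / 4 : ℝ)) ≤ ε * (sqrt R * Lx p ^ (1 / 4 : ℝ)) :=
      mul_le_mul_of_nonneg_right (by linarith) hX
    linarith [h1.2]

end Pool.Agent.Helper88.EX
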