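import Pool.Agent.Helper93.EX.Defs
import Pool.Agent.Helper93.AO.Prev

/-!
# EX, block B, part A: semicontinuity of the errors
-/

open MeasureTheory Real Set Filter Topology

set_option autoImplicit false

namespace Pool.Agent.Helper88.EX

open Pool.Agent.Helper93.AO Pool.Agent.Helper93.EX
open Pool.Agent.Helper22.AE (IsSupp area rho dom dom_compact area_scale)
open Pool.Agent.Helper22.LP (Fr fdet rot_isSupp)
open Pool.Agent.Helper92.LA (Fb lcnt)
open Pool.Agent.Helper22.OV (shf shf_smooth shf_rho exists_shift area_shf)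

/-- the lattice of the integer points -/
noncomputable def idf : Fr := (((1 : ℝ), (0 : ℝ)), ((0 : ℝ), (1 : ℝ)))

/-- the number of points of the lattice in the interior of `c + R · dom H` -/
noncomputable def lcntO (ab : Fr) (H : ℝ → ℝ) (c : ℝ × ℝ) (R : ℝ) : ℝ :=
  (Nat.card {k : ℤ × ℤ // ∀ t : ℝ, ((k.1 : ℝ) * ab.1.1 + (k.2 : ℝ) * ab.2.1 - c.1) * cos t +
    ((k.1 : ℝ) * ab.1.2 + (k.2 : ℝ) * ab.2.2 - c.2) * sin t < R * H t} : ℝ)

/-- the error for the interior -/
noncomputable def ErO (ab : Fr) (H : ℝ → ℝ) (c : ℝ × ℝ) (R : ℝ) : ℝ :=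
  lcntO ab H c R - area H * R ^ 2 / abs (fdet ab)

/-- scalar product of `k - c` with the direction `t` -/
noncomputable def pr (k : ℤ × ℤ) (c : ℝ × ℝ) (t : ℝ) : ℝ := ((k.1 : ℝ) - c.1) * cos t + ((k.2 : ℝ) - c.2) * sin t

/-- points of the closed oval -/
def SC (H : ℝ → ℝ) (c : ℝ × ℝ) (R : ℝ) : Set (ℤ × ℤ) := {k | ∀ t : ℝ, pr k c t ≤ R * H t}

/-- points of the open oval -/
def SO (H : ℝ → ℝ) (c : ℝ × ℝ) (R : ℝ) : Set (ℤ × ℤ) := {k | ∀ t : ℝ, pr k c t < R * H t}

theorem fdet_idf : fdet idf = 1 := by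
  unfold fdet idf
  norm_num

theorem pr_idf (k : ℤ × ℤ) (c : ℝ × ℝ) (t : ℝ) :
    ((k.1 : ℝ) * idf.1.1 + (k.2 : ℝ) * idf.2.1 - c.1) * cos t +
      ((k.1 : ℝ) * idf.1.2 + (k.2 : ℝ) * idf.2.2 - c.2) * sin t = pr k c t := by
  unfold pr idf
  simp

theorem lcnt_idf (H : ℝ → ℝ) (c : ℝ × ℝ) (R : ℝ) : lcnt idf H c R = ((SC H c R).ncard : ℝ) := by
  unfold lcnt SC Set.ncard
  congr 1
  refine Nat.card_congr (Equiv.subtypeEquivRight fun k => ?_)
  refine forall_congr' fun t => ?_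
  rw [pr_idf]

theorem lcntO_idf (H : ℝ → ℝ) (c : ℝ × ℝ) (R : ℝ) : lcntO idf H c R = ((SO H c R).ncard : ℝ) := by
  unfold lcntO SO Set.ncard
  congr 1
  refine Nat.card_congr (Equiv.subtypeEquivRight fun k => ?_)
  refine forall_congr' fun t => ?_
  rw [pr_idf]

theorem Er_idf (H : ℝ → ℝ) (c : ℝ × ℝ) (R : ℝ) : Er idf H c R = ((SC H c R).ncard : ℝ) - area H * R ^ 2 := by
  unfold Er
  rw [lcnt_idf, fdet_idf, abs_one, div_one]

theorem ErO_idf (H : ℝ → ℝ) (c : ℝ × ℝ) (R : ℝ) : ErO idf H c R = ((SO H c R).ncard : ℝ) - area H * R ^ 2 := by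
  unfold ErO
  rw [lcntO_idf, fdet_idf, abs_one, div_one]

/-- finiteness -/
theorem fin_G (G : ℝ → ℝ) (c : ℝ × ℝ) : {k : ℤ × ℤ | ∀ t : ℝ, pr k c t ≤ G t}.Finite := by
  let S : Finset (ℤ × ℤ) := Finset.Icc ⌊c.1 - G π⌋ ⌈c.1 + G 0⌉ ×ˢ
    Finset.Icc ⌊c.2 - G (-(π / 2))⌋ ⌈c.2 + G (π / 2)⌉
  refine (Finset.finite_toSet S).subset ?_
  intro k hk
  have a0 := hk 0
  have a1 := hk (π / 2)
  have a2 := hk π
  have a3 := hk (-(π / 2))
  unfold pr at a0 a1 a2 a3
  simp only [Real.cos_zero, Real.sin_zero, Real.cos_pi_div_two, Real.sin_pi_div_two, Real.cos_pi, Real.sin_pi,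
    Real.cos_neg, Real.sin_neg, mul_one, mul_zero, add_zero, zero_add, mul_neg] at a0 a1 a2 a3
  simp only [S, Finset.coe_product, Set.mem_prod, Finset.mem_coe, Finset.mem_Icc]
  refine ⟨⟨?_, ?_⟩, ⟨?_, ?_⟩⟩
  · have : (⌊c.1 - G π⌋ : ℝ) ≤ k.1 := (Int.floor_le _).trans (by linarith)
    exact_mod_cast this
  · have : (k.1 : ℝ) ≤ ⌈c.1 + G 0⌉ := le_trans (by linarith) (Int.le_ceil _)
    exact_mod_cast this
  · have : (⌊c.2 - G (-(π / 2))⌋ : ℝ) ≤ k.2 := (Int.floor_le _).trans (by linarith)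
    exact_mod_cast this
  · have : (k.2 : ℝ) ≤ ⌈c.2 + G (π / 2)⌉ := le_trans (by linarith) (Int.le_ceil _)
    exact_mod_cast this

theorem fin_SC (H : ℝ → ℝ) (c : ℝ × ℝ) (R : ℝ) : (SC H c R).Finite := fin_G (fun t => R * H t) c

theorem SO_sub (H : ℝ → ℝ) (c : ℝ × ℝ) (R : ℝ) : SO H c R ⊆ SC H c R := fun _ hk t => (hk t).le

theorem fin_SO (H : ℝ → ℝ) (c : ℝ × ℝ) (R : ℝ) : (SO H c R).Finite := (fin_SC H c R).subset (SO_sub H c R)

theorem ErO_le (H : ℝ → ℝ) (c : ℝ × ℝ) (R : ℝ) : ErO idf H c R ≤ Er idf H c R := by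
  rw [ErO_idf, Er_idf]
  have : ((SO H c R).ncard : ℝ) ≤ ((SC H c R).ncard : ℝ) := by
    exact_mod_cast Set.ncard_le_ncard (SO_sub H c R) (fin_SC H c R)
  linarith

/-- the closed oval lies in the interior of the dilated one -/
theorem SC_sub_SO {H : ℝ → ℝ} {v : ℝ × ℝ} (hv : ∀ t, 0 < shf H v t) {c : ℝ × ℝ} {R R' : ℝ} (hR : R < R') :
    SC H c R ⊆ SO H (c.1 + (R' - R) * v.1, c.2 + (R' - R) * v.2) R' := by
  intro k hk t
  have h1 := hk t
  have h2 := mul_lt_mul_of_pos_right hR (hv t)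
  unfold shf at h2
  unfold pr at h1 ⊢
  simp only
  nlinarith

theorem pr_near (k : ℤ × ℤ) (c c' : ℝ × ℝ) {δ : ℝ} (h1 : |c'.1 - c.1| ≤ δ) (h2 : |c'.2 - c.2| ≤ δ) (t : ℝ) :
    |pr k c' t - pr k c t| ≤ 2 * δ := by
  have e : pr k c' t - pr k c t = -((c'.1 - c.1) * cos t) - (c'.2 - c.2) * sin t := by
    unfold pr
    ring
  rw [e]
  have h3 : |(c'.1 - c.1) * cos t| ≤ δ := by
    rw [abs_mul]
    calc |c'.1 - c.1| * |cos t| ≤ δ * 1 := mul_le_mul h1 (abs_cos_le_one t) (abs_nonneg _) ((abs_nonneg _).trans h1)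
      _ = δ := mul_one _
  have h4 : |(c'.2 - c.2) * sin t| ≤ δ := by
    rw [abs_mul]
    calc |c'.2 - c.2| * |sin t| ≤ δ * 1 := mul_le_mul h2 (abs_sin_le_one t) (abs_nonneg _) ((abs_nonneg _).trans h2)
      _ = δ := mul_one _
  rw [abs_le] at h3 h4 ⊢
  constructor <;> linarith [h3.1, h3.2, h4.1, h4.2]

theorem lower88 {F : ℝ → ℝ} (hc : Continuous F) (hp : Function.Periodic F (2 * π)) (h0 : ∀ t, 0 < F t) :
    ∃ m : ℝ, 0 < m ∧ ∀ t, m ≤ F t := by
  have hK : IsCompact (Icc (0 : ℝ) (2 * π)) := isCompact_Icc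
  have hne : (Icc (0 : ℝ) (2 * π)).Nonempty := ⟨0, by constructor <;> positivity⟩
  obtain ⟨x, _, hx⟩ := hK.exists_isMinOn hne hc.continuousOn
  refine ⟨F x, h0 x, fun t => ?_⟩
  obtain ⟨s, hs, he⟩ := hp.exists_mem_Ico₀ (by positivity) t
  rw [he]
  exact hx ⟨hs.1, hs.2.le⟩

theorem pr_cont (k : ℤ × ℤ) (c : ℝ × ℝ) : Continuous (pr k c) := by
  unfold pr
  fun_prop

theorem pr_per (k : ℤ × ℤ) (c : ℝ × ℝ) : Function.Periodic (pr k c) (2 * π) := by
  intro t
  unfold pr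
  rw [cos_add_two_pi, sin_add_two_pi]

section

variable {k : ℕ} {V : Type} [TopologicalSpace V] {val : V → ℝ → ℝ}

theorem ov88 (h : IsPer k val) (hk : 2 ≤ k) {H : V} (hH : ∀ t, 0 < val H t + deriv (deriv (val H)) t) : IsOv (val H) :=
  ⟨(h.smooth H).of_le (by exact_mod_cast hk), h.per H, hH⟩

theorem cont88 (h : IsPer k val) {j : ℕ} (hj : j ≤ k) : Continuous fun f : V => UniformFun.ofFun (iteratedDeriv j (val f)) :=
  (continuous_apply (⟨j, by omega⟩ : Fin (k + 1))).comp h.top.continuous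

theorem ball88 (h : IsPer k val) {j : ℕ} (hj : j ≤ k) (H : V) {ε : ℝ} (hε : 0 < ε) :
    ∀ᶠ f : V in 𝓝 H, ∀ t, |iteratedDeriv j (val f) t - iteratedDeriv j (val H) t| < ε := by
  have h1 := ((cont88 h hj).tendsto H)
  rw [UniformFun.tendsto_iff_tendstoUniformly, Metric.tendstoUniformly_iff] at h1
  filter_upwards [h1 ε hε] with f hf t
  have := hf t
  rw [dist_comm, Real.dist_eq] at this
  exact this

theorem two88 (f : ℝ → ℝ) : iteratedDeriv 2 f = deriv (deriv f) := by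
  rw [iteratedDeriv_succ, iteratedDeriv_one]

theorem near88 (h : IsPer k val) (H : V) {ε : ℝ} (hε : 0 < ε) : ∀ᶠ f : V in 𝓝 H, ∀ t, |val f t - val H t| < ε := by
  filter_upwards [ball88 h (j := 0) (Nat.zero_le k) H hε] with f hf t
  simpa only [iteratedDeriv_zero] using hf t

theorem rho_near88 (h : IsPer k val) (hk : 2 ≤ k) (H : V) {ε : ℝ} (hε : 0 < ε) :
    ∀ᶠ f : V in 𝓝 H, ∀ t, |rho (val f) t - rho (val H) t| < ε := by
  filter_upwards [near88 h H (show 0 < ε / 2 by linarith), ball88 h (j := 2) hk H (show 0 < ε / 2 by linarith)] with f h3 h4 t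
  have h5 := abs_lt.1 (h3 t)
  have h6 := h4 t
  rw [two88, two88] at h6
  have h7 := abs_lt.1 h6
  unfold rho
  rw [abs_lt]
  constructor <;> linarith [h5.1, h5.2, h7.1, h7.2]

/-- continuity and periodicity of the radius of curvature -/
theorem rho_cont88 (h : IsPer k val) (hk : 2 ≤ k) (H : V) :
    Continuous (rho (val H)) ∧ Function.Periodic (rho (val H)) (2 * π) := by
  have h2 : ContDiff ℝ 2 (val H) := (h.smooth H).of_le (by exact_mod_cast hk)
  constructor
  · have : rho (val H) = fun t => val H t + iteratedDeriv 2 (val H) t := by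
      funext t
      rw [two88]
      rfl
    rw [this]
    exact h2.continuous.add (h2.continuous_iteratedDeriv 2 le_rfl)
  · intro t
    have e1 : Function.Periodic (deriv (val H)) (2 * π) := by
      intro s
      have h3 : (fun x => val H (x + 2 * π)) = val H := funext (h.per H)
      calc deriv (val H) (s + 2 * π) = deriv (fun x => val H (x + 2 * π)) s := (deriv_comp_add_const _ _ _).symm
        _ = _ := by rw [h3]
    have e2 : deriv (deriv (val H)) (t + 2 * π) = deriv (deriv (val H)) t := by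
      have h3 : (fun x => deriv (val H) (x + 2 * π)) = deriv (val H) := funext e1
      calc deriv (deriv (val H)) (t + 2 * π) = deriv (fun x => deriv (val H) (x + 2 * π)) t := (deriv_comp_add_const _ _ _).symm
        _ = _ := by rw [h3]
    unfold rho
    simp only [h.per H t, e2]

/-- positive radius of curvature is an open condition -/
theorem pos88 (h : IsPer k val) (hk : 2 ≤ k) {H : V} (hH : ∀ t, 0 < val H t + deriv (deriv (val H)) t) :
    ∀ᶠ f : V in 𝓝 H, ∀ t, 0 < val f t + deriv (deriv (val f)) t := by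
  obtain ⟨hc, hp⟩ := rho_cont88 h hk H
  obtain ⟨m, hm, hmin⟩ := lower88 hc hp hH
  filter_upwards [rho_near88 h hk H hm] with f hf t
  have h1 := (abs_lt.1 (hf t)).1
  have h2 := hmin t
  unfold rho at h1 h2
  linarith

/-- continuity of the area -/
theorem area_near88 (h : IsPer k val) (hk : 2 ≤ k) {H : V} (hH : ∀ t, 0 < val H t + deriv (deriv (val H)) t)
    {ε : ℝ} (hε : 0 < ε) : ∀ᶠ f : V in 𝓝 H, |area (val f) - area (val H)| < ε := by
  have hO := ov88 h hk hH
  obtain ⟨v, hv⟩ := exists_shift hO.smooth hO.per hO.rho_pos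
  obtain ⟨m, hm, hmin⟩ := lower88 hv.smooth.continuous hv.per hv.pos
  have hA0 : 0 ≤ area (val H) := ENNReal.toReal_nonneg
  have harea : ∀ {A B : ℝ → ℝ}, IsSupp B → (∀ θ, A θ ≤ B θ) → area A ≤ area B := fun hB hle =>
    ENNReal.toReal_mono (dom_compact hB).measure_lt_top.ne (measure_mono fun _ hp θ => (hp θ).trans (hle θ))
  have hscale : ∀ {A : ℝ → ℝ}, IsSupp A → ∀ {s : ℝ}, 0 < s →
      IsSupp (fun θ => s * A θ) ∧ area (fun θ => s * A θ) = s ^ 2 * area A := by
    intro A hA s hs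
    refine ⟨?_, area_scale hA hs⟩
    have h1 := rot_isSupp hA hs 0
    simpa using h1
  -- a small `δ`
  have hc1 : ContinuousAt (fun δ : ℝ => (1 + δ) ^ 2 * area (val H)) 0 := by fun_prop
  have hc2 : ContinuousAt (fun δ : ℝ => (1 - δ) ^ 2 * area (val H)) 0 := by fun_prop
  have e1 : ∀ᶠ δ : ℝ in 𝓝[>] 0, (1 + δ) ^ 2 * area (val H) < area (val H) + ε := by
    have := hc1.eventually (gt_mem_nhds (show (1 + (0 : ℝ)) ^ 2 * area (val H) < area (val H) + ε by
      rw [add_zero, one_pow, one_mul]; linarith))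
    exact this.filter_mono nhdsWithin_le_nhds
  have e2 : ∀ᶠ δ : ℝ in 𝓝[>] 0, area (val H) - ε < (1 - δ) ^ 2 * area (val H) := by
    have := hc2.eventually (lt_mem_nhds (show area (val H) - ε < (1 - (0 : ℝ)) ^ 2 * area (val H) by
      rw [sub_zero, one_pow, one_mul]; linarith))
    exact this.filter_mono nhdsWithin_le_nhds
  have e3 : ∀ᶠ δ : ℝ in 𝓝[>] 0, δ < 1 := (gt_mem_nhds one_pos).filter_mono nhdsWithin_le_nhds
  obtain ⟨δ, ⟨⟨hδ1, hδ2⟩, hδ3⟩, hδ0⟩ := (((e1.and e2).and e3).and self_mem_nhdsWithin).exists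
  have hδ0' : 0 < δ := hδ0
  filter_upwards [pos88 h hk hH, near88 h H (show 0 < δ * m by positivity)] with f hf hd
  have hO' := ov88 h hk hf
  have e : ∀ t, shf (val f) v t - shf (val H) v t = val f t - val H t := by
    intro t
    unfold shf
    ring
  have hδm : ∀ t, δ * m ≤ δ * shf (val H) v t := fun t => mul_le_mul_of_nonneg_left (hmin t) hδ0'.le
  have hl : ∀ t, (1 - δ) * shf (val H) v t ≤ shf (val f) v t := by
    intro t
    have h2 := (abs_lt.1 (hd t)).1
    rw [← e] at h2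
    linarith [hδm t]
  have hu : ∀ t, shf (val f) v t ≤ (1 + δ) * shf (val H) v t := by
    intro t
    have h2 := (abs_lt.1 (hd t)).2
    rw [← e] at h2
    linarith [hδm t]
  have hs : IsSupp (shf (val f) v) := by
    refine ⟨shf_smooth v hO'.smooth, ?_, fun t => lt_of_lt_of_le (mul_pos (by linarith) (hv.pos t)) (hl t), fun t => ?_⟩
    · intro t
      unfold shf
      rw [hO'.per t, cos_add_two_pi, sin_add_two_pi]
    · rw [shf_rho v hO'.smooth]
      exact hO'.rho_pos t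
  have a1 : (1 - δ) ^ 2 * area (val H) ≤ area (val f) := by
    rw [← area_shf (val H) v, ← area_shf (val f) v, ← (hscale hv (s := 1 - δ) (by linarith)).2]
    exact harea hs hl
  have a2 : area (val f) ≤ (1 + δ) ^ 2 * area (val H) := by
    have h5 := hscale hv (s := 1 + δ) (by linarith)
    rw [← area_shf (val H) v, ← area_shf (val f) v, ← h5.2]
    exact harea h5.1 hu
  rw [abs_lt]
  constructor <;> linarith

/-- continuity of the affine perimeter -/
theorem aff_near88 (h : IsPer k val) (hk : 2 ≤ k) {H : V} (hH : ∀ t, 0 < val H t + deriv (deriv (val H)) t)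
    {ε : ℝ} (hε : 0 < ε) : ∀ᶠ f : V in 𝓝 H, |aff (val f) - aff (val H)| < ε := by
  have hpi := Real.pi_pos
  -- a small `δ`
  have hc : ContinuousAt (fun δ : ℝ => δ ^ (2 / 3 : ℝ) * (2 * π)) 0 :=
    (Real.continuousAt_rpow_const _ _ (Or.inr (by norm_num))).mul continuousAt_const
  have e1 : ∀ᶠ δ : ℝ in 𝓝[>] 0, δ ^ (2 / 3 : ℝ) * (2 * π) < ε := by
    have := hc.eventually (gt_mem_nhds (show (0 : ℝ) ^ (2 / 3 : ℝ) * (2 * π) < ε by
      rw [Real.zero_rpow (by norm_num), zero_mul]; exact hε))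
    exact this.filter_mono nhdsWithin_le_nhds
  obtain ⟨δ, hδ, hδ0⟩ := (e1.and self_mem_nhdsWithin).exists
  have hδ0' : 0 < δ := hδ0
  have hsub : ∀ x y : ℝ, 0 ≤ x → 0 ≤ y → (x + y) ^ (2 / 3 : ℝ) ≤ x ^ (2 / 3 : ℝ) + y ^ (2 / 3 : ℝ) := by
    intro x y hx hy
    have := NNReal.rpow_add_le_add_rpow ⟨x, hx⟩ ⟨y, hy⟩ (p := 2 / 3) (by norm_num) (by norm_num)
    exact_mod_cast this
  filter_upwards [pos88 h hk hH, rho_near88 h hk H hδ0'] with f hf hd
  obtain ⟨c1, -⟩ := rho_cont88 h hk f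
  obtain ⟨c2, -⟩ := rho_cont88 h hk H
  have i1 : Continuous fun t => rho (val f) t ^ (2 / 3 : ℝ) := c1.rpow_const fun t => Or.inr (by norm_num)
  have i2 : Continuous fun t => rho (val H) t ^ (2 / 3 : ℝ) := c2.rpow_const fun t => Or.inr (by norm_num)
  unfold aff
  rw [← intervalIntegral.integral_sub (i1.intervalIntegrable _ _) (i2.intervalIntegrable _ _)]
  have hb : ∀ t ∈ Set.uIoc (0 : ℝ) (2 * π), ‖rho (val f) t ^ (2 / 3 : ℝ) - rho (val H) t ^ (2 / 3 : ℝ)‖ ≤ δ ^ (2 / 3 : ℝ) := by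
    intro t _
    have h1 := abs_lt.1 (hd t)
    have p1 : 0 ≤ rho (val f) t := (hf t).le
    have p2 : 0 ≤ rho (val H) t := (hH t).le
    rw [Real.norm_eq_abs, abs_le]
    constructor
    · have h2 : rho (val H) t ^ (2 / 3 : ℝ) ≤ (rho (val f) t + δ) ^ (2 / 3 : ℝ) :=
        Real.rpow_le_rpow p2 (by linarith) (by norm_num)
      have h3 := hsub _ _ p1 hδ0'.le
      linarith
    · have h2 : rho (val f) t ^ (2 / 3 : ℝ) ≤ (rho (val H) t + δ) ^ (2 / 3 : ℝ) :=
        Real.rpow_le_rpow p1 (by linarith) (by norm_num)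
      have h3 := hsub _ _ p2 hδ0'.le
      linarith
  have h1 := intervalIntegral.norm_integral_le_of_norm_le_const hb
  rw [sub_zero, abs_of_pos (by positivity)] at h1
  exact lt_of_le_of_lt h1 hδ

theorem prod_near {H : V} {c : ℝ × ℝ} {δ : ℝ} (hδ : 0 < δ) :
    ∀ᶠ z : V × (ℝ × ℝ) in 𝓝 (H, c), |z.2.1 - c.1| < δ ∧ |z.2.2 - c.2| < δ := by
  have h1 : Tendsto (fun z : V × (ℝ × ℝ) => z.2.1) (𝓝 (H, c)) (𝓝 c.1) :=
    ((continuous_fst.comp continuous_snd).tendsto (H, c))
  have h2 : Tendsto (fun z : V × (ℝ × ℝ) => z.2.2) (𝓝 (H, c)) (𝓝 c.2) :=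
    ((continuous_snd.comp continuous_snd).tendsto (H, c))
  filter_upwards [Metric.tendsto_nhds.1 h1 δ hδ, Metric.tendsto_nhds.1 h2 δ hδ] with z a b
  rw [Real.dist_eq] at a b
  exact ⟨a, b⟩

/-- interior points persist -/
theorem lscO (h : IsPer k val) (H : V) (c : ℝ × ℝ) (R : ℝ) :
    ∀ᶠ z : V × (ℝ × ℝ) in 𝓝 (H, c), SO (val H) c R ⊆ SO (val z.1) z.2 R := by
  have hc : Continuous (val H) := (h.smooth H).continuous
  have key : ∀ κ ∈ SO (val H) c R, ∀ᶠ z : V × (ℝ × ℝ) in 𝓝 (H, c), κ ∈ SO (val z.1) z.2 R := by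
    intro κ hκ
    obtain ⟨m, hm, hmin⟩ := lower88 (F := fun t => R * val H t - pr κ c t)
      ((continuous_const.mul hc).sub (pr_cont κ c)) (fun t => by
        simp only [h.per H t, pr_per κ c t]) (fun t => by
        have := hκ t
        linarith)
    set δ : ℝ := m / (2 * (|R| + 3)) with hδ
    have hR : 0 < |R| + 3 := by positivity
    have hδ0 : 0 < δ := by positivity
    have hδm : (|R| + 3) * δ < m := by
      rw [hδ]
      field_simp
      linarith
    filter_upwards [prod_near (H := H) (c := c) hδ0,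
      (continuous_fst.tendsto (H, c)).eventually (near88 h H hδ0)] with z hz hf t
    have h1 := abs_le.1 (pr_near κ c z.2 hz.1.le hz.2.le t)
    have h2 := hmin t
    have h3 : |R * val z.1 t - R * val H t| ≤ |R| * δ := by
      rw [← mul_sub, abs_mul]
      exact mul_le_mul_of_nonneg_left (hf t).le (abs_nonneg _)
    have h4 := abs_le.1 h3
    nlinarith [h1.2, h4.1]
  have := (Filter.eventually_all_finite (fin_SO (val H) c R)).2 key
  filter_upwards [this] with z hz κ hκ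
  exact hz κ hκ

/-- no new points appear in the closed oval -/
theorem uscC (h : IsPer k val) (H : V) (c : ℝ × ℝ) (R : ℝ) :
    ∀ᶠ z : V × (ℝ × ℝ) in 𝓝 (H, c), SC (val z.1) z.2 R ⊆ SC (val H) c R := by
  let F : Set (ℤ × ℤ) := {κ | ∀ t : ℝ, pr κ c t ≤ R * val H t + (|R| + 2)}
  have hF : F.Finite := fin_G _ c
  have key : ∀ κ ∈ F, ∀ᶠ z : V × (ℝ × ℝ) in 𝓝 (H, c), κ ∈ SC (val z.1) z.2 R → κ ∈ SC (val H) c R := by
    intro κ _
    by_cases hκ : κ ∈ SC (val H) c R
    · exact Filter.Eventually.of_forall fun z _ => hκ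
    · have h1 : ∃ t, R * val H t < pr κ c t := by
        unfold SC at hκ
        rw [Set.mem_ofPred_eq] at hκ
        push Not at hκ
        exact hκ
      obtain ⟨t, ht⟩ := h1
      set m : ℝ := pr κ c t - R * val H t with hm
      have hm0 : 0 < m := by linarith
      set δ : ℝ := m / (2 * (|R| + 3)) with hδ
      have hR : 0 < |R| + 3 := by positivity
      have hδ0 : 0 < δ := by positivity
      have hδm : (|R| + 3) * δ < m := by
        rw [hδ]
        field_simp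
        linarith
      filter_upwards [prod_near (H := H) (c := c) hδ0,
        (continuous_fst.tendsto (H, c)).eventually (near88 h H hδ0)] with z hz hf hzκ
      exfalso
      have h1 := abs_le.1 (pr_near κ c z.2 hz.1.le hz.2.le t)
      have h3 : |R * val z.1 t - R * val H t| ≤ |R| * δ := by
        rw [← mul_sub, abs_mul]
        exact mul_le_mul_of_nonneg_left (hf t).le (abs_nonneg _)
      have h4 := abs_le.1 h3
      have h5 := hzκ t
      nlinarith [h1.1, h4.2]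
  have hall := (Filter.eventually_all_finite hF).2 key
  filter_upwards [hall, prod_near (H := H) (c := c) one_pos,
    (continuous_fst.tendsto (H, c)).eventually (near88 h H one_pos)] with z hz hz1 hf κ hκ
  apply hz κ _ hκ
  intro t
  have h1 := abs_le.1 (pr_near κ c z.2 hz1.1.le hz1.2.le t)
  have h3 : |R * val z.1 t - R * val H t| ≤ |R| * 1 := by
    rw [← mul_sub, abs_mul]
    exact mul_le_mul_of_nonneg_left (hf t).le (abs_nonneg _)
  have h4 := abs_le.1 h3
  have h5 := hκ t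
  linarith [h1.1, h4.2]

end

end Pool.Agent.Helper88.EX
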