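import Pool.Agent.Helper93.EX.Defs4

/-!
# EX4, block B4 (a): the upper violations of the law of the large values form a Borel set
-/

open MeasureTheory Real Set Filter Topology

set_option autoImplicit false

namespace Pool.Agent.Helper88.EX

open Pool.Agent.Helper93.AO Pool.Agent.Helper93.EX
open Pool.Agent.Helper22.AE (IsSupp area rho)

section

variable {k : ℕ} {V : Type} [TopologicalSpace V] {val : V → ℝ → ℝ}

/-- the affine perimeter is positive -/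
theorem aff_pos88 (h : IsPer k val) (hk : 2 ≤ k) {H : V} (hH : ∀ t, 0 < val H t + deriv (deriv (val H)) t) :
    0 < aff (val H) := by
  obtain ⟨c1, -⟩ := rho_cont88 h hk H
  have i1 : Continuous fun t => rho (val H) t ^ (2 / 3 : ℝ) := c1.rpow_const fun t => Or.inr (by norm_num)
  unfold aff
  refine intervalIntegral.intervalIntegral_pos_of_pos_on (i1.intervalIntegrable _ _) (fun t _ => ?_)
    (by have := Real.pi_pos; linarith)
  exact Real.rpow_pos_of_pos (hH t) _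

/-- continuity of the normalised exponent -/
theorem expo_cont (h : IsPer k val) (hk : 2 ≤ k) {κ : ℝ} (hκ : 0 < κ) (t e : ℝ) (p : ℕ) {H : V}
    (hH : ∀ t, 0 < val H t + deriv (deriv (val H)) t) :
    ContinuousAt (fun f : V => (2 : ℝ) ^ ((1 - (t / (κ * aff (val f) ^ (3 / 4 : ℝ))) ^ 4 + e) * p : ℝ)) H := by
  have h0 := aff_pos88 h hk hH
  have h1 : ContinuousAt (fun f : V => aff (val f)) H := by
    rw [Metric.continuousAt_iff']
    intro ε hε
    filter_upwards [aff_near88 h hk hH hε] with f hf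
    rw [Real.dist_eq]
    exact hf
  have h2 : ContinuousAt (fun x : ℝ => (2 : ℝ) ^ ((1 - (t / (κ * x ^ (3 / 4 : ℝ))) ^ 4 + e) * p : ℝ)) (aff (val H)) := by
    have h3 : ContinuousAt (fun x : ℝ => x ^ (3 / 4 : ℝ)) (aff (val H)) :=
      Real.continuousAt_rpow_const _ _ (Or.inr (by norm_num))
    have h4 : κ * aff (val H) ^ (3 / 4 : ℝ) ≠ 0 := (mul_pos hκ (Real.rpow_pos_of_pos h0 _)).ne'
    have h5 : ContinuousAt (fun x : ℝ => (1 - (t / (κ * x ^ (3 / 4 : ℝ))) ^ 4 + e) * (p : ℝ)) (aff (val H)) :=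
      ((continuousAt_const.sub ((continuousAt_const.div (continuousAt_const.mul h3) h4).pow 4)).add
        continuousAt_const).mul continuousAt_const
    exact ContinuousAt.comp (f := fun x : ℝ => (1 - (t / (κ * x ^ (3 / 4 : ℝ))) ^ 4 + e) * (p : ℝ))
      (Real.continuousAt_const_rpow (by norm_num)) h5
  exact ContinuousAt.comp (f := fun f : V => aff (val f)) h2 h1

/-- the measure decreases with the level -/
theorem LV_anti {F : ℝ → ℝ} {t t' A B : ℝ} (hA : 2 ≤ A) (h : t' ≤ t) : LV F t A B ≤ LV F t' A B := by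
  unfold LV
  refine measureReal_mono ?_ ?_
  · rintro R ⟨hR, hv⟩
    refine ⟨hR, lt_of_le_of_lt ?_ hv⟩
    exact mul_le_mul_of_nonneg_right h (gR_pos (hA.trans hR.1)).le
  · refine ne_top_of_le_ne_top ?_ (measure_mono (fun R hR => hR.1 : {R : ℝ | R ∈ Icc A B ∧ t' * gR R < F R} ⊆ Icc A B))
    rw [Real.volume_Icc]
    exact ENNReal.ofReal_ne_top

theorem two_pow_ge {p : ℕ} (hp : 1 ≤ p) : (2 : ℝ) ≤ 2 ^ p := by
  calc (2 : ℝ) = 2 ^ 1 := (pow_one _).symm
    _ ≤ 2 ^ p := pow_le_pow_right₀ (by norm_num) hp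

/-- (a), from the lower semicontinuity of the measures -/
theorem meas_up4_of [MeasurableSpace V] [BorelSpace V] (h : IsPer k val) (hk : 2 ≤ k) {σ κ : ℝ} (hκ : 0 < κ)
    (hlsc : ∀ t A B : ℝ, 2 ≤ A → ∀ H : V, (∀ t, 0 < val H t + deriv (deriv (val H)) t) → ∀ (c : ℝ × ℝ) (y : ℝ),
      y < LV (fun R => Es σ (val H) c R) t A B →
      ∀ᶠ q : V × (ℝ × ℝ) in 𝓝 (H, c), y < LV (fun R => Es σ (val q.1) q.2 R) t A B) :
    MeasurableSet {H : V | (∀ t, 0 < val H t + deriv (deriv (val H)) t) ∧ ∃ t : ℝ, 0 < t ∧ ∃ ε : ℝ, 0 < ε ∧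
      ∀ p₀ : ℕ, ∃ p : ℕ, p₀ ≤ p ∧ ∃ c : ℝ × ℝ, (2 : ℝ) ^ ((1 - (t / (κ * aff (val H) ^ (3 / 4 : ℝ))) ^ 4 + ε) * p : ℝ) <
        LV (fun R => Es σ (val H) c R) t (2 ^ p) (2 ^ (p + 1))} := by
  let U : ℚ → ℚ → ℕ → Set V := fun t e p => {H | (∀ t, 0 < val H t + deriv (deriv (val H)) t) ∧
    ∃ c : ℝ × ℝ, (2 : ℝ) ^ ((1 - ((t : ℝ) / (κ * aff (val H) ^ (3 / 4 : ℝ))) ^ 4 + (e : ℝ)) * p : ℝ) <
      LV (fun R => Es σ (val H) c R) t (2 ^ p) (2 ^ (p + 1))}
  have hU : ∀ t e p, 1 ≤ p → IsOpen (U t e p) := by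
    intro t e p hp
    rw [isOpen_iff_mem_nhds]
    rintro H ⟨hH, c, hv⟩
    obtain ⟨y, hy1, hy2⟩ := exists_between hv
    have h1 := (expo_cont h hk hκ t e p hH).eventually (gt_mem_nhds hy1)
    have h2 : Tendsto (fun f : V => (f, c)) (𝓝 H) (𝓝 (H, c)) := (Continuous.prodMk_left c).tendsto H
    have h3 := h2.eventually (hlsc t (2 ^ p) (2 ^ (p + 1)) (two_pow_ge hp) H hH c y hy2)
    filter_upwards [pos88 h hk hH, h1, h3] with f f1 f2 f3
    exact ⟨f1, c, f2.trans f3⟩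
  have hset : {H : V | (∀ t, 0 < val H t + deriv (deriv (val H)) t) ∧ ∃ t : ℝ, 0 < t ∧ ∃ ε : ℝ, 0 < ε ∧
      ∀ p₀ : ℕ, ∃ p : ℕ, p₀ ≤ p ∧ ∃ c : ℝ × ℝ, (2 : ℝ) ^ ((1 - (t / (κ * aff (val H) ^ (3 / 4 : ℝ))) ^ 4 + ε) * p : ℝ) <
        LV (fun R => Es σ (val H) c R) t (2 ^ p) (2 ^ (p + 1))} =
      ⋃ (t : ℚ) (_ : 0 < t) (e : ℚ) (_ : 0 < e), ⋂ m : ℕ, ⋃ (p : ℕ) (_ : m ≤ p) (_ : 1 ≤ p), U t e p := by
    ext H
    simp only [mem_iUnion, mem_iInter, exists_prop]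
    constructor
    · rintro ⟨hH, t, ht, ε, hε, hp⟩
      have hT : 0 < κ * aff (val H) ^ (3 / 4 : ℝ) := mul_pos hκ (Real.rpow_pos_of_pos (aff_pos88 h hk hH) _)
      have hc : ContinuousAt (fun x : ℝ => (x / (κ * aff (val H) ^ (3 / 4 : ℝ))) ^ 4) t :=
        (continuousAt_id.div_const _).pow 4
      obtain ⟨δ, hδ, hball⟩ := Metric.eventually_nhds_iff.1 (hc.eventually (lt_mem_nhds
        (show (t / (κ * aff (val H) ^ (3 / 4 : ℝ))) ^ 4 - ε / 2 < (t / (κ * aff (val H) ^ (3 / 4 : ℝ))) ^ 4 by linarith)))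
      obtain ⟨t', ht1, ht2⟩ := exists_rat_btwn (show max (t - δ) (t / 2) < t from max_lt (by linarith) (by linarith))
      obtain ⟨e', he1, he2⟩ := exists_rat_btwn (show (0 : ℝ) < ε / 2 by linarith)
      have ht3 := lt_of_le_of_lt (le_max_left _ _) ht1
      have ht4 := lt_of_le_of_lt (le_max_right _ _) ht1
      have hb := hball (y := (t' : ℝ)) (by rw [Real.dist_eq, abs_lt]; constructor <;> linarith)
      refine ⟨t', by exact_mod_cast (by linarith : (0 : ℝ) < t'), e', by exact_mod_cast he1, fun m => ?_⟩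
      obtain ⟨p, hp1, c, hv⟩ := hp (max m 1)
      have hp2 : 1 ≤ p := (le_max_right _ _).trans hp1
      refine ⟨p, (le_max_left _ _).trans hp1, hp2, hH, c, ?_⟩
      refine lt_of_le_of_lt ?_ (lt_of_lt_of_le hv (LV_anti (two_pow_ge hp2) ht2.le))
      apply Real.rpow_le_rpow_of_exponent_le (by norm_num)
      refine mul_le_mul_of_nonneg_right ?_ (Nat.cast_nonneg p)
      linarith
    · rintro ⟨t, ht, e, he, hm⟩
      refine ⟨?_, t, by exact_mod_cast ht, e, by exact_mod_cast he, fun p₀ => ?_⟩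
      · obtain ⟨p, -, -, hH, -⟩ := hm 0
        exact hH
      · obtain ⟨p, hp, -, -, c, hv⟩ := hm p₀
        exact ⟨p, hp, c, hv⟩
  rw [hset]
  refine MeasurableSet.iUnion fun t => MeasurableSet.iUnion fun _ => MeasurableSet.iUnion fun e =>
    MeasurableSet.iUnion fun _ => MeasurableSet.iInter fun m => MeasurableSet.iUnion fun p =>
    MeasurableSet.iUnion fun _ => MeasurableSet.iUnion fun hp => (hU t e p hp).measurableSet

end

end Pool.Agent.Helper88.EX
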